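import Mathlib

open Filter Topology

namespace Pool.Agent.Results.MP_b39627_an.Minorant

/-- the closed nonnegative orthant -/
def Orth (m : ℕ) : Set (Fin m → ℝ) := {x | ∀ i, 0 ≤ x i}

/-- increasing in each variable on the orthant -/
def Incr {m : ℕ} (f : (Fin m → ℝ) → ℝ) : Prop :=
  ∀ x ∈ Orth m, ∀ (i : Fin m) (t : ℝ), x i ≤ t → f x ≤ f (Function.update x i t)

lemma Incr.mono {m : ℕ} {f : (Fin m → ℝ) → ℝ} (hf : Incr f) {x y : Fin m → ℝ} (hx : x ∈ Orth m)
    (hxy : x ≤ y) : f x ≤ f y := by
  have : ∀ s : Finset (Fin m), f x ≤ f (s.piecewise y x) := by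
    intro s
    induction s using Finset.induction_on with
    | empty => simp
    | insert a s ha ih =>
      rw [Finset.piecewise_insert]
      refine ih.trans (hf _ (fun i => ?_) a _ ?_)
      · by_cases hi : i ∈ s
        · rw [Finset.piecewise_eq_of_mem _ _ _ hi]; exact (hx i).trans (hxy i)
        · rw [Finset.piecewise_eq_of_notMem _ _ _ hi]; exact hx i
      · rw [Finset.piecewise_eq_of_notMem _ _ _ ha]; exact hxy a
  simpa using this Finset.univ

noncomputable def th (p s : ℝ) : ℝ := (max s 0) ^ p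

lemma th_nonneg (p s : ℝ) : 0 ≤ th p s := Real.rpow_nonneg (le_max_right _ _) _

lemma th_mono {p : ℝ} (hp : 0 ≤ p) {s t : ℝ} (h : s ≤ t) : th p s ≤ th p t :=
  Real.rpow_le_rpow (le_max_right _ _) (max_le_max_right _ h) hp

lemma th_add {p : ℝ} (hp : 0 ≤ p) (hp1 : p ≤ 1) (s : ℝ) {t : ℝ} (ht : 0 ≤ t) :
    th p (s + t) ≤ th p s + t ^ p := by
  refine le_trans (Real.rpow_le_rpow (le_max_right _ _) (?_ : _ ≤ max s 0 + t) hp)
    (Real.rpow_add_le_add_rpow (le_max_right _ _) ht hp hp1)
  exact max_le (by linarith [le_max_left s 0]) (by linarith [le_max_right s 0])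

lemma th_conc {p : ℝ} (hp : 0 ≤ p) (hp1 : p ≤ 1) {e t : ℝ} (he : 0 < e) (hte : t ≤ e) :
    th p (e - t) + t * p * e ^ (p - 1) ≤ th p e := by
  unfold th
  rw [max_eq_left (by linarith), max_eq_left he.le]
  have h1 := rpow_one_add_le_one_add_mul_self (s := -(t / e))
    (by rw [neg_le_neg_iff, div_le_one he]; exact hte) hp hp1
  have h2 : e - t = e * (1 + -(t / e)) := by field_simp; ring
  have h3 : 0 ≤ 1 + -(t / e) := by
    have : t / e ≤ 1 := (div_le_one he).2 hte
    linarith
  have h4 := Real.rpow_pos_of_pos he p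
  rw [h2, Real.mul_rpow he.le h3, Real.rpow_sub_one he.ne']
  calc e ^ p * (1 + -(t / e)) ^ p + t * p * (e ^ p / e)
      ≤ e ^ p * (1 + p * -(t / e)) + t * p * (e ^ p / e) := by gcongr
    _ = e ^ p := by field_simp; ring

section
variable {m : ℕ} (u : (Fin m → ℝ) → ℝ) (K p : ℝ)

noncomputable def Lam (x : Fin m → ℝ) : ℝ := K * Real.exp (∑ i, x i)
noncomputable def S (x y : Fin m → ℝ) : ℝ := ∑ i, th p (x i - y i)
noncomputable def w (x : Fin m → ℝ) : ℝ := ⨅ y : Orth m, (u y + Lam K x * S p x y)

variable {u K p}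

lemma S_nonneg (x y : Fin m → ℝ) : 0 ≤ S p x y := Finset.sum_nonneg fun _ _ => th_nonneg _ _

lemma S_mono (hp : 0 ≤ p) {x x' : Fin m → ℝ} (h : x ≤ x') (y : Fin m → ℝ) : S p x y ≤ S p x' y :=
  Finset.sum_le_sum fun i _ => th_mono hp (by linarith [h i])

lemma S_gain (hp : 0 ≤ p) {x x' : Fin m → ℝ} (h : x ≤ x') (y : Fin m → ℝ) (i : Fin m) :
    S p x y + (th p (x' i - y i) - th p (x i - y i)) ≤ S p x' y := by
  have := Finset.single_le_sum (f := fun j => th p (x' j - y j) - th p (x j - y j))
    (fun j _ => sub_nonneg.2 (th_mono hp (by linarith [h j]))) (Finset.mem_univ i)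
  rw [Finset.sum_sub_distrib] at this
  unfold S; linarith

lemma Lam_pos (hK : 0 < K) (x : Fin m → ℝ) : 0 < Lam K x := mul_pos hK (Real.exp_pos _)

lemma Lam_mono (hK : 0 < K) {x x' : Fin m → ℝ} (h : x ≤ x') : Lam K x ≤ Lam K x' :=
  mul_le_mul_of_nonneg_left (Real.exp_le_exp.2 (Finset.sum_le_sum fun i _ => h i)) hK.le

instance : Nonempty (Orth m) := ⟨⟨0, fun _ => le_rfl⟩⟩

lemma w_le (hu : ∀ x ∈ Orth m, 0 ≤ u x) (hK : 0 < K) (x : Fin m → ℝ) {y : Fin m → ℝ}
    (hy : y ∈ Orth m) : w u K p x ≤ u y + Lam K x * S p x y :=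
  ciInf_le ⟨0, by
    rintro _ ⟨z, rfl⟩
    exact add_nonneg (hu _ z.2) (mul_nonneg (Lam_pos hK x).le (S_nonneg _ _))⟩ (⟨y, hy⟩ : Orth m)

lemma le_w {x : Fin m → ℝ} {c : ℝ} (h : ∀ y ∈ Orth m, c ≤ u y + Lam K x * S p x y) :
    c ≤ w u K p x := le_ciInf fun y => h y y.2

lemma w_mono (hu : ∀ x ∈ Orth m, 0 ≤ u x) (hK : 0 < K) (hp : 0 ≤ p) {x x' : Fin m → ℝ}
    (h : x ≤ x') : w u K p x ≤ w u K p x' :=
  le_w fun y hy => (w_le hu hK x hy).trans (add_le_add le_rfl
    (mul_le_mul (Lam_mono hK h) (S_mono hp h y) (S_nonneg _ _) (Lam_pos hK _).le))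

lemma w_up (hu : ∀ x ∈ Orth m, 0 ≤ u x) (hK : 0 < K) (hp : 0 ≤ p) (hp1 : p ≤ 1)
    {x z : Fin m → ℝ} {t : ℝ} (ht : 0 ≤ t) (h : ∀ i, z i ≤ x i + t) :
    Real.exp (-(m * t)) * w u K p z - Lam K x * (m * t ^ p) ≤ w u K p x := by
  refine le_w fun y hy => ?_
  have h1 : Lam K z ≤ Real.exp (m * t) * Lam K x := by
    unfold Lam
    rw [mul_left_comm, ← Real.exp_add]
    refine mul_le_mul_of_nonneg_left (Real.exp_le_exp.2 ?_) hK.le
    have := Finset.sum_le_sum fun i (_ : i ∈ Finset.univ) => h i
    simp [Finset.sum_add_distrib] at this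
    linarith
  have h2 : S p z y ≤ S p x y + m * t ^ p := by
    have := Finset.sum_le_sum fun i (_ : i ∈ Finset.univ) =>
      (th_mono hp (by linarith [h i] : z i - y i ≤ x i - y i + t)).trans (th_add hp hp1 _ ht)
    simpa [Finset.sum_add_distrib, S] using this
  have h3 := (w_le (p := p) hu hK z hy).trans (add_le_add le_rfl
    (mul_le_mul h1 h2 (S_nonneg _ _) (mul_pos (Real.exp_pos _) (Lam_pos hK _)).le))
  have h4 : Real.exp (-(m * t)) * Real.exp (m * t) = 1 := by rw [← Real.exp_add]; simp
  have h5 : Real.exp (-(m * t)) ≤ 1 := Real.exp_le_one_iff.2 (by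
    have : 0 ≤ (m : ℝ) * t := by positivity
    linarith)
  have h6 := mul_le_mul_of_nonneg_left h3 (Real.exp_pos (-(m * t))).le
  rw [mul_add, ← mul_assoc, ← mul_assoc, h4] at h6
  nlinarith [hu y hy]

lemma w_cont (hu : ∀ x ∈ Orth m, 0 ≤ u x) (hK : 0 < K) (hp : 0 < p) (hp1 : p ≤ 1) :
    Continuous (w u K p) := by
  rw [continuous_iff_continuousAt]
  intro x
  have hL : Continuous (Lam K : (Fin m → ℝ) → ℝ) := by unfold Lam; fun_prop
  have hr : Continuous fun z : Fin m → ℝ => dist z x ^ p :=
    (continuous_id.dist continuous_const).rpow_const fun _ => Or.inr hp.le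
  have c1 : Continuous fun z : Fin m → ℝ =>
      Real.exp (-(m * dist z x)) * w u K p x - Lam K z * (m * dist z x ^ p) := by fun_prop
  have c2 : Continuous fun z : Fin m → ℝ =>
      Real.exp (m * dist z x) * (w u K p x + Lam K x * (m * dist z x ^ p)) := by fun_prop
  refine tendsto_of_tendsto_of_tendsto_of_le_of_le (c1.tendsto' x _ (by simp [hp.ne']))
    (c2.tendsto' x _ (by simp [hp.ne'])) (fun z => ?_) (fun z => ?_)
  · refine w_up hu hK hp.le hp1 dist_nonneg fun i => ?_
    have := dist_le_pi_dist z x i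
    rw [Real.dist_eq] at this
    linarith [neg_abs_le (z i - x i)]
  · have h1 := w_up (p := p) hu hK hp.le hp1 (x := x) (z := z) (t := dist z x) dist_nonneg fun i => by
      have := dist_le_pi_dist z x i
      rw [Real.dist_eq] at this
      linarith [le_abs_self (z i - x i)]
    have h4 : Real.exp (m * dist z x) * Real.exp (-(m * dist z x)) = 1 := by
      rw [← Real.exp_add]; simp
    have h6 := mul_le_mul_of_nonneg_left (sub_le_iff_le_add.1 h1) (Real.exp_pos (m * dist z x)).le
    rwa [← mul_assoc, h4, one_mul] at h6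

lemma slope {f : (Fin m → ℝ) → ℝ} {L : (Fin m → ℝ) →L[ℝ] ℝ} {x : Fin m → ℝ}
    (h : HasFDerivAt f L x) (v : Fin m → ℝ) :
    Tendsto (fun t : ℝ => t⁻¹ * (f (x + t • v) - f x)) (𝓝[>] 0) (𝓝 (L v)) := by
  have h1 : HasDerivAt (fun t : ℝ => x + t • v) v 0 := by
    simpa using ((hasDerivAt_id (0 : ℝ)).smul_const v).const_add x
  have h2 : HasDerivAt (fun t : ℝ => f (x + t • v)) (L v) 0 :=
    HasFDerivAt.comp_hasDerivAt_of_eq (l := f) 0 h h1 (by simp)
  simpa using h2.tendsto_slope_zero_right
end

theorem result (m : ℕ) (hm : 3 ≤ m) (u : (Fin m → ℝ) → ℝ) (hu : ∀ x ∈ Orth m, 0 ≤ u x)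
    (hinc : Incr u) (hz : ∀ x ∈ Orth m, (∃ i, x i = 0) → u x = 0) (C : ℝ) (hC : 0 < C) :
    ∃ v : (Fin m → ℝ) → ℝ, ContinuousOn v (Orth m) ∧ Incr v ∧
      (∀ x ∈ Orth m, 0 ≤ v x ∧ v x ≤ u x) ∧
      ∀ x ∈ Orth m, DifferentiableWithinAt ℝ v (Orth m) x → v x ≠ u x →
        C ≤ ∏ i, fderivWithin ℝ v (Orth m) x (Pi.single i 1) := by
  have hm3 : (3 : ℝ) ≤ m := by exact_mod_cast hm
  set p : ℝ := 1 / m with hpdef
  have hp : 0 < p := by positivity
  have hpm : p * m = 1 := by rw [hpdef]; field_simp
  have hp1 : p < 1 := by nlinarith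
  set K : ℝ := 1 + m * C with hKdef
  have hK1 : 1 ≤ K := by nlinarith
  have hK : 0 < K := by linarith
  have b0 : ∀ x, 0 ≤ w u K p x := fun x => le_w fun y hy =>
    add_nonneg (hu y hy) (mul_nonneg (Lam_pos hK x).le (S_nonneg _ _))
  have b1 : ∀ x ∈ Orth m, w u K p x ≤ u x := fun x hx => by
    simpa [S, th, hp.ne'] using w_le (p := p) hu hK x hx
  refine ⟨w u K p, (w_cont hu hK hp hp1.le).continuousOn, fun x _ i t ht =>
    w_mono hu hK hp.le (le_update_iff.2 ⟨ht, fun _ _ => le_rfl⟩), fun x hx => ⟨b0 x, b1 x hx⟩,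
    fun x hx hd hne => ?_⟩
  have hlt : w u K p x < u x := lt_of_le_of_ne (b1 x hx) hne
  have hpos : ∀ i, 0 < x i := fun i => lt_of_le_of_ne (hx i) fun e => by
    have := hz x hx ⟨i, e.symm⟩
    linarith [b0 x]
  have hn : Orth m ∈ 𝓝 x := by
    have : ∀ᶠ z in 𝓝 x, ∀ i, 0 ≤ z i := eventually_all.2 fun i =>
      ((continuous_apply i).tendsto x).eventually (eventually_ge_nhds (hpos i))
    exact this
  have hD := (hd.differentiableAt hn).hasFDerivAt
  rw [fderivWithin_of_mem_nhds hn]
  set L := fderiv ℝ (w u K p) x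
  have hLam : K ≤ Lam K x := le_mul_of_one_le_right hK.le
    (Real.one_le_exp (Finset.sum_nonneg fun i _ => hx i))
  have hL0 := Lam_pos hK x
  by_cases hA : ∃ δ > 0, ∀ ε > 0, ∃ y ∈ Orth m, ∃ i, δ ≤ x i - y i ∧
      u y + Lam K x * S p x y < w u K p x + ε
  · obtain ⟨δ, hδ, hA⟩ := hA
    have key : ∀ t : ℝ, 0 < t → t ≤ δ → (Lam K x / (1 + t)) ^ m * p ≤
        ∏ j, -(t⁻¹ * (w u K p (x + t • (-Pi.single j 1)) - w u K p x)) := by
      intro t ht htδ
      have h1 : ∀ ε > 0, (Lam K x / (1 + t)) ^ m * p ≤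
          ∏ j, (-(t⁻¹ * (w u K p (x + t • (-Pi.single j 1)) - w u K p x)) + ε) := by
        intro ε hε
        obtain ⟨y, hy, i, hi, h⟩ := hA (ε * t) (by positivity)
        set d := x i - y i with hd
        have hd0 : 0 < d := by linarith
        have hle : ∀ j, x + t • (-Pi.single j 1 : Fin m → ℝ) ≤ x := by
          intro j k
          by_cases hk : k = j
          · subst hk; simp [ht.le]
          · simp [Pi.single_eq_of_ne hk]
        have h2 : ∀ j, Lam K x / (1 + t) * (d ^ p * if j = i then p / d else 1) ≤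
            -(t⁻¹ * (w u K p (x + t • (-Pi.single j 1)) - w u K p x)) + ε := by
          intro j
          have h3 := w_le (p := p) hu hK (x + t • (-Pi.single j 1)) hy
          have h4 : t * (Lam K x / (1 + t) * (d ^ p * if j = i then p / d else 1)) ≤
              Lam K x * S p x y - Lam K (x + t • (-Pi.single j 1)) *
                S p (x + t • (-Pi.single j 1)) y := by
            split_ifs with hj
            · subst hj
              have h5 := S_gain hp.le (hle j) y j
              have h6 := th_conc hp.le hp1.le hd0 (t := t) (by linarith)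
              have e : (x + t • (-Pi.single j 1 : Fin m → ℝ)) j - y j = d - t := by
                simp [hd]; ring
              rw [e] at h5
              rw [Real.rpow_sub_one hd0.ne'] at h6
              have h7 := mul_le_mul_of_nonneg_right (Lam_mono hK (hle j))
                (S_nonneg (p := p) (x + t • (-Pi.single j 1)) y)
              have h8 : Lam K x / (1 + t) ≤ Lam K x := div_le_self hL0.le (by linarith)
              have h9 : 0 ≤ t * p * (d ^ p / d) := by positivity
              calc _ = Lam K x / (1 + t) * (t * p * (d ^ p / d)) := by ring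
                _ ≤ Lam K x * (t * p * (d ^ p / d)) := by gcongr
                _ ≤ Lam K x * (S p x y - S p (x + t • (-Pi.single j 1)) y) := by
                  gcongr; linarith
                _ ≤ _ := by linarith
            · have h5 : Lam K (x + t • (-Pi.single j 1)) ≤ Lam K x / (1 + t) := by
                rw [le_div_iff₀ (by linarith)]
                have e : ∑ k, (x + t • (-Pi.single j 1 : Fin m → ℝ)) k = ∑ k, x k - t := by
                  simp [Finset.sum_add_distrib, ← Finset.mul_sum, sub_eq_add_neg]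
                unfold Lam
                rw [e, mul_assoc, Real.exp_sub]
                refine mul_le_mul_of_nonneg_left ?_ hK.le
                rw [div_mul_eq_mul_div, div_le_iff₀ (Real.exp_pos _)]
                exact mul_le_mul_of_nonneg_left (by linarith [Real.add_one_le_exp t])
                  (Real.exp_pos _).le
              have h6 : d ^ p ≤ S p x y := by
                have := Finset.single_le_sum (f := fun k => th p (x k - y k))
                  (fun k _ => th_nonneg _ _) (Finset.mem_univ i)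
                simp only [th, ← hd, max_eq_left hd0.le] at this
                exact this
              have h7 := mul_le_mul h5 (S_mono hp.le (hle j) y) (S_nonneg _ _)
                (by positivity)
              have e : Lam K x = Lam K x / (1 + t) + t * (Lam K x / (1 + t)) := by
                field_simp
              have h8 : 0 ≤ t * (Lam K x / (1 + t)) := by positivity
              have h9 := mul_le_mul_of_nonneg_left h6 h8
              calc _ = t * (Lam K x / (1 + t)) * d ^ p := by ring
                _ ≤ t * (Lam K x / (1 + t)) * S p x y := h9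
                _ = Lam K x * S p x y - Lam K x / (1 + t) * S p x y := by
                  field_simp; ring
                _ ≤ _ := by linarith
          refine le_of_mul_le_mul_left ?_ ht
          rw [mul_add, mul_neg, ← mul_assoc t t⁻¹, mul_inv_cancel₀ ht.ne', one_mul]
          linarith
        refine le_trans (le_of_eq ?_) (Finset.prod_le_prod (fun j _ => by positivity)
          fun j _ => h2 j)
        rw [Finset.prod_mul_distrib, Finset.prod_mul_distrib, Finset.prod_ite_eq']
        simp only [Finset.prod_const, Finset.card_univ, Fintype.card_fin, Finset.mem_univ, if_true]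
        rw [← Real.rpow_natCast (d ^ p), ← Real.rpow_mul hd0.le, hpm, Real.rpow_one]
        field_simp
      have c : Continuous fun ε : ℝ =>
          ∏ j, (-(t⁻¹ * (w u K p (x + t • (-Pi.single j 1)) - w u K p x)) + ε) := by fun_prop
      have := ge_of_tendsto ((c.tendsto 0).mono_left (nhdsWithin_le_nhds (s := Set.Ioi 0)))
        (eventually_nhdsWithin_of_forall h1)
      simpa using this
    have t1 : Tendsto (fun t : ℝ => ∏ j, -(t⁻¹ * (w u K p (x + t • (-Pi.single j 1)) - w u K p x)))
        (𝓝[>] 0) (𝓝 (∏ j, L (Pi.single j 1))) := by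
      refine tendsto_finset_prod _ fun j _ => ?_
      simpa using (slope hD (-Pi.single j 1)).neg
    have t2 : Tendsto (fun t : ℝ => (Lam K x / (1 + t)) ^ m * p) (𝓝[>] 0)
        (𝓝 ((Lam K x / (1 + 0)) ^ m * p)) := by
      refine Tendsto.mono_left (ContinuousAt.tendsto ?_) nhdsWithin_le_nhds
      fun_prop (disch := norm_num)
    have := le_of_tendsto_of_tendsto t2 t1 (by
      filter_upwards [Ioc_mem_nhdsGT hδ] with t ht using key t ht.1 ht.2)
    refine le_trans ?_ this
    have h1 : K ≤ Lam K x ^ m := hLam.trans (le_self_pow₀ (by linarith) (by omega))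
    simp only [add_zero, div_one]
    nlinarith
  · exfalso
    push Not at hA
    set q := L (fun _ => 1)
    set B := (|q| + 1) / p with hB
    have hB0 : 0 < B := by positivity
    set δ := B ^ (p - 1)⁻¹ / 2 with hδdef
    have hδ : 0 < δ := by positivity
    have hδB : (2 * δ) ^ (p - 1) = B := by
      rw [hδdef, mul_div_cancel₀ _ two_ne_zero, Real.rpow_inv_rpow hB0.le (by linarith)]
    obtain ⟨η, hη, hA⟩ := hA δ hδ
    have key : ∀ t : ℝ, 0 < t → t ≤ δ → t * (|q| + 1) ≤ η → t * (|q| + 1) ≤ u x - w u K p x →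
        |q| + 1 ≤ t⁻¹ * (w u K p (x + t • fun _ => 1) - w u K p x) := by
      intro t ht h1 h2 h3
      rw [le_inv_mul_iff₀ ht, le_sub_iff_add_le]
      have hle : x ≤ x + t • fun _ => (1 : ℝ) := fun k => by simp [ht.le]
      refine le_w fun y hy => ?_
      have m1 := mul_le_mul_of_nonneg_right (Lam_mono hK hle)
        (S_nonneg (p := p) (x + t • fun _ => (1 : ℝ)) y)
      have m2 := mul_le_mul_of_nonneg_left (S_mono hp.le hle y) hL0.le
      have m3 := mul_nonneg hL0.le (S_nonneg (p := p) x y)
      by_cases hxy : x ≤ y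
      · have := hinc.mono hx hxy
        linarith
      obtain ⟨i, hi⟩ := not_forall.1 hxy
      have hi : y i < x i := not_le.1 hi
      by_cases hi2 : δ ≤ x i - y i
      · have := hA y hy i hi2
        linarith
      have h5 := S_gain hp.le hle y i
      have e : (x + t • fun _ => (1 : ℝ) : Fin m → ℝ) i - y i = x i - y i + t := by simp; ring
      have h6 := th_conc hp.le hp1.le (e := x i - y i + t) (t := t) (by linarith) (by linarith)
      rw [add_sub_cancel_right] at h6
      rw [e] at h5
      have h7 : B ≤ (x i - y i + t) ^ (p - 1) := by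
        rw [← hδB]
        exact Real.rpow_le_rpow_of_nonpos (by linarith) (by linarith) (by linarith)
      have h8 : t * (|q| + 1) ≤ t * p * (x i - y i + t) ^ (p - 1) := by
        calc _ = t * p * B := by rw [hB]; field_simp
          _ ≤ _ := by gcongr
      have h9 := w_le (p := p) hu hK x hy
      have h10 : 0 ≤ t * (|q| + 1) := by positivity
      have h11 := mul_le_mul_of_nonneg_left (show S p x y + t * (|q| + 1) ≤
        S p (x + t • fun _ => (1 : ℝ)) y by linarith) hL0.le
      nlinarith
    have c : Tendsto (fun t : ℝ => t * (|q| + 1)) (𝓝[>] 0) (𝓝 0) := by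
      have : Continuous fun t : ℝ => t * (|q| + 1) := by fun_prop
      simpa using (this.tendsto 0).mono_left nhdsWithin_le_nhds
    have := ge_of_tendsto (slope hD fun _ => 1) (by
      filter_upwards [Ioc_mem_nhdsGT hδ, c.eventually (eventually_le_nhds hη),
        c.eventually (eventually_le_nhds (sub_pos.2 hlt))] with t ht a b
        using key t ht.1 ht.2 a b)
    linarith [le_abs_self q]

end Pool.Agent.Results.MP_b39627_an.Minorant
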